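import Pool.Agent.KS6_64.DA.Samp

/-!
# Sample points for `e ≥ p + 6`
-/

set_option autoImplicit false

namespace Pool.Agent.KS6_64.DB

open Filter Topology Pool.Agent.KS6_64.CY Pool.Agent.KS6_64.CZ Pool.Agent.KS6_64.DA

theorem decr2 {y : ℝ} (y0 : 0 ≤ y) (y1 : y ≤ 1) {k : ℕ} (h : ((k : ℝ) + 2) * y ≤ k) :
    ∀ n : ℕ, k ≤ n → (n : ℝ) * (y ^ n / (1 + y ^ n)) ≤ k * (y ^ k / (1 + y ^ k)) := by
  intro n hn
  induction n, hn using Nat.le_induction with
  | base => exact le_rfl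
  | succ n hn ih =>
    refine le_trans ?_ ih
    have hn' : (k : ℝ) ≤ n := by exact_mod_cast hn
    have h1 : ((n : ℝ) + 2) * y ≤ n := by nlinarith
    have Y0 : 0 ≤ y ^ n := pow_nonneg y0 n
    have Y1 : y ^ n ≤ 1 := pow_le_one₀ y0 y1
    have e : y ^ (n + 1) = y ^ n * y := pow_succ y n
    rw [mul_div_assoc', mul_div_assoc', div_le_div_iff₀ (by positivity) (by positivity), e]
    push_cast
    have h2 : y * y ^ n ≤ y := mul_le_of_le_one_right y0 Y1
    have h3 : ((n : ℝ) + 1) * y + y * y ^ n - n ≤ 0 := by linarith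
    have h4 := mul_nonpos_of_nonneg_of_nonpos Y0 h3
    nlinarith

theorem G2_pos {p k e : ℕ} (hp : p.Prime) (h3 : 2 < p) {y c : ℝ} (y0 : 0 < y) (y1 : y < 1)
    (hk : ((k : ℝ) + 2) * y ≤ k) (hke : k ≤ e) (hc0 : 0 ≤ c) (hc : y ^ k ≤ c)
    (hv : k * (c / (1 + c)) ≤ p * y ^ p / (1 + y ^ p) - 1 / 2) :
    0 < GE (fun x => gg p (-x)) e y := by
  show 0 < gg p (-y) + e * gg p (-(y ^ e))
  rw [hneg hp h3 y0.le, hneg hp h3 (pow_nonneg y0.le e)]
  have u1 : y / (1 + y) < 1 / 2 := by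
    rw [div_lt_iff₀ (by positivity)]
    linarith
  have u2 := decr2 y0.le y1.le hk e hke
  have u3 : (k : ℝ) * (y ^ k / (1 + y ^ k)) ≤ k * (c / (1 + c)) := by
    apply mul_le_mul_of_nonneg_left _ (by positivity)
    rw [div_le_div_iff₀ (by positivity) (by positivity)]
    nlinarith
  have u6 : (0 : ℝ) ≤ e * (p * (y ^ e) ^ p / (1 + (y ^ e) ^ p)) := by positivity
  rw [mul_sub]
  linarith

theorem fin_check : ∀ p < 95, 7 ≤ p → (16 * p + 117) ^ p ≤ 8 ^ 6 * (16 * p - 72) ^ p := by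
  decide +kernel

theorem exp_one_pow (n : ℕ) : Real.exp n ≤ 2.7182818286 ^ n := by
  rw [← mul_one (n : ℝ), Real.exp_nat_mul]
  exact pow_le_pow_left₀ (Real.exp_pos 1).le Real.exp_one_lt_d9.le n

theorem key7 {p : ℕ} (h7 : 7 ≤ p) : ((1 : ℝ) / 8) ^ (p + 6) ≤
    ((2 * (p : ℝ) - 9) / (16 * p + 117)) ^ p := by
  have hp7 : (7 : ℝ) ≤ p := by exact_mod_cast h7
  have hd : (0 : ℝ) < 16 * p + 117 := by linarith
  have hn : (0 : ℝ) < 16 * p - 72 := by linarith
  have hmain : (16 * (p : ℝ) + 117) ^ p ≤ 8 ^ 6 * (16 * (p : ℝ) - 72) ^ p := by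
    rcases lt_or_ge p 95 with h | h
    · have h1 := fin_check p h h7
      have h2 : ((16 * p - 72 : ℕ) : ℝ) = 16 * (p : ℝ) - 72 := by
        rw [Nat.cast_sub (by omega)]; push_cast; ring
      have h5 : (((16 * p + 117) ^ p : ℕ) : ℝ) ≤ ((8 ^ 6 * (16 * p - 72) ^ p : ℕ) : ℝ) := by
        exact_mod_cast h1
      rw [Nat.cast_mul, Nat.cast_pow (16 * p - 72), h2] at h5
      push_cast at h5
      have h6 : (8 : ℝ) ^ 6 = 262144 := by norm_num
      rw [h6]
      exact h5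
    · have hp95 : (95 : ℝ) ≤ p := by exact_mod_cast h
      have h1 : 16 * (p : ℝ) + 117 = (16 * p - 72) * (189 / (16 * p - 72) + 1) := by
        field_simp; ring
      rw [h1, mul_pow, mul_comm ((8 : ℝ) ^ 6)]
      apply mul_le_mul_of_nonneg_left _ (by positivity)
      have h2 : (189 / (16 * (p : ℝ) - 72) + 1) ^ p ≤ Real.exp (62 / 5) := by
        calc (189 / (16 * (p : ℝ) - 72) + 1) ^ p ≤ (Real.exp (189 / (16 * (p : ℝ) - 72))) ^ p :=
              pow_le_pow_left₀ (by positivity) (Real.add_one_le_exp _) p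
          _ = Real.exp (p * (189 / (16 * (p : ℝ) - 72))) := (Real.exp_nat_mul _ _).symm
          _ ≤ Real.exp (62 / 5) := by
              apply Real.exp_le_exp.2
              rw [mul_div_assoc', div_le_div_iff₀ hn (by norm_num)]
              linarith
      refine h2.trans ?_
      apply le_of_pow_le_pow_left₀ (n := 5) (by norm_num) (by positivity)
      rw [← Real.exp_nat_mul]
      have h4 : ((5 : ℕ) : ℝ) * (62 / 5) = ((62 : ℕ) : ℝ) := by norm_num
      rw [h4]
      refine (exp_one_pow 62).trans ?_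
      norm_num
  have h1 : ((2 * (p : ℝ) - 9) / (16 * p + 117)) ^ p =
      (1 / 8) ^ p * ((16 * (p : ℝ) - 72) ^ p / (16 * p + 117) ^ p) := by
    rw [← div_pow, ← mul_pow]
    congr 1
    field_simp
    ring
  rw [h1, pow_add]
  apply mul_le_mul_of_nonneg_left _ (by positivity)
  rw [le_div_iff₀ (by positivity)]
  calc (1 / 8 : ℝ) ^ 6 * (16 * p + 117) ^ p ≤ (1 / 8 : ℝ) ^ 6 * (8 ^ 6 * (16 * (p : ℝ) - 72) ^ p) :=
        mul_le_mul_of_nonneg_left hmain (by positivity)
    _ = (16 * (p : ℝ) - 72) ^ p := by ring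

theorem Y2 {p e : ℕ} (hp : p.Prime) (h3 : 2 < p) (he : p + 6 ≤ e) (h11 : 11 ≤ e) : ∃ y : ℝ,
    0 < y ∧ y < 1 ∧ 1 / (2 * (p : ℝ)) < y ^ p ∧ y ^ p ≤ 1 / 4 ∧ 0 < GE (fun x => gg p (-x)) e y := by
  have p0 : p ≠ 0 := by omega
  have q0 : (0 : ℝ) < 1 / 4 := by norm_num
  have q1 : (1 / 4 : ℝ) < 1 := by norm_num
  have r0 : (0 : ℝ) < 1 / 8 := by norm_num
  have r1 : (1 / 8 : ℝ) < 1 := by norm_num
  have hcase : p = 3 ∨ p = 5 ∨ 7 ≤ p := by
    rcases Nat.lt_or_ge p 7 with h | h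
    · interval_cases p
      · exact Or.inl rfl
      · exact absurd hp (by norm_num)
      · exact Or.inr (Or.inl rfl)
      · exact absurd hp (by norm_num)
    · exact Or.inr (Or.inr h)
  rcases hcase with rfl | rfl | h7
  · obtain ⟨b1, b2, b3⟩ := root_facts q0 q1 p0
    set y : ℝ := (1 / 4 : ℝ) ^ (((3 : ℕ) : ℝ)⁻¹) with hy
    refine ⟨y, b2, b3, by rw [b1]; norm_num, by rw [b1], ?_⟩
    refine G2_pos (k := 11) (c := 1 / 109) hp h3 b2 b3 ?_ h11 (by norm_num) ?_ ?_
    · have h1 : y ≤ 11 / 13 := by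
        apply le_of_pow_le_pow_left₀ (n := 3) (by norm_num) (by norm_num)
        rw [b1]; norm_num
      push_cast; linarith
    · apply le_of_pow_le_pow_left₀ (n := 3) (by norm_num) (by norm_num)
      rw [← pow_mul, mul_comm, pow_mul, b1]; norm_num
    · rw [b1]; norm_num
  · obtain ⟨b1, b2, b3⟩ := root_facts q0 q1 p0
    set y : ℝ := (1 / 4 : ℝ) ^ (((5 : ℕ) : ℝ)⁻¹) with hy
    refine ⟨y, b2, b3, by rw [b1]; norm_num, by rw [b1], ?_⟩
    refine G2_pos (k := 11) (c := 1 / 21) hp h3 b2 b3 ?_ h11 (by norm_num) ?_ ?_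
    · have h1 : y ≤ 11 / 13 := by
        apply le_of_pow_le_pow_left₀ (n := 5) (by norm_num) (by norm_num)
        rw [b1]; norm_num
      push_cast; linarith
    · apply le_of_pow_le_pow_left₀ (n := 5) (by norm_num) (by norm_num)
      rw [← pow_mul, mul_comm, pow_mul, b1]; norm_num
    · rw [b1]; norm_num
  · obtain ⟨b1, b2, b3⟩ := root_facts r0 r1 p0
    have hp7 : (7 : ℝ) ≤ p := by exact_mod_cast h7
    have pp : (0 : ℝ) < p := by linarith
    set y : ℝ := (1 / 8 : ℝ) ^ ((p : ℝ)⁻¹) with hy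
    refine ⟨y, b2, b3, ?_, by rw [b1]; norm_num, ?_⟩
    · rw [b1]
      exact one_div_lt_one_div_of_lt (by norm_num) (by linarith)
    refine G2_pos (k := p + 6) (c := (2 * (p : ℝ) - 9) / (16 * p + 117)) hp h3 b2 b3 ?_ he ?_ ?_ ?_
    · have h6 : (0 : ℝ) < p + 6 := by linarith
      have h8 : (0 : ℝ) < p + 8 := by linarith
      have h1 : y ≤ (p + 6) / (p + 8) := by
        apply le_of_pow_le_pow_left₀ p0 (by positivity)
        rw [b1, div_pow, le_div_iff₀ (by positivity)]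
        have h2 : (p : ℝ) + 8 = (p + 6) * (2 / (p + 6) + 1) := by field_simp; ring
        have h4 : (2 / ((p : ℝ) + 6) + 1) ^ p ≤ 8 := by
          calc (2 / ((p : ℝ) + 6) + 1) ^ p ≤ (Real.exp (2 / ((p : ℝ) + 6))) ^ p :=
                pow_le_pow_left₀ (by positivity) (Real.add_one_le_exp _) p
            _ = Real.exp (p * (2 / ((p : ℝ) + 6))) := (Real.exp_nat_mul _ _).symm
            _ ≤ Real.exp ((2 : ℕ) : ℝ) := by
                apply Real.exp_le_exp.2
                rw [mul_div_assoc', div_le_iff₀ h6]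
                push_cast
                linarith
            _ ≤ 2.7182818286 ^ 2 := exp_one_pow 2
            _ ≤ 8 := by norm_num
        rw [h2, mul_pow]
        have h5 : (0 : ℝ) < ((p : ℝ) + 6) ^ p := by positivity
        nlinarith
      rw [le_div_iff₀ h8] at h1
      push_cast
      linarith
    · apply div_nonneg <;> linarith
    · apply le_of_pow_le_pow_left₀ p0 (by apply div_nonneg <;> linarith)
      rw [← pow_mul, mul_comm, pow_mul, b1]
      exact key7 h7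
    · rw [b1]
      push_cast
      apply le_of_eq
      have hd : (16 * (p : ℝ) + 117) ≠ 0 := by positivity
      have hd2 : (1 : ℝ) + (2 * p - 9) / (16 * p + 117) = 18 * (p + 6) / (16 * p + 117) := by
        field_simp; ring
      have h6 : (p : ℝ) + 6 ≠ 0 := by positivity
      rw [hd2]
      field_simp
      ring

theorem two_rpow {ρ : ℝ} (h1 : 1 ≤ ρ) (h3 : ρ ≤ 3) : (2 : ℝ) ^ ρ ≤ 3 * ρ - 1 := by
  have hc := convexOn_rpow_left (show (0 : ℝ) < 2 by norm_num)
  have h := hc.2 (Set.mem_univ (1 : ℝ)) (Set.mem_univ (3 : ℝ))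
    (show (0 : ℝ) ≤ (3 - ρ) / 2 by linarith) (show (0 : ℝ) ≤ (ρ - 1) / 2 by linarith) (by ring)
  simp only [smul_eq_mul] at h
  have e1 : (3 - ρ) / 2 * 1 + (ρ - 1) / 2 * 3 = ρ := by ring
  have e3 : (2 : ℝ) ^ (3 : ℝ) = 8 := by
    have : (3 : ℝ) = ((3 : ℕ) : ℝ) := by norm_num
    rw [this, Real.rpow_natCast]; norm_num
  rw [e1, Real.rpow_one, e3] at h
  linarith

theorem sq_lt {e : ℕ} (h : 11 ≤ e) : 3 * (e * e) < 2 ^ e := by
  induction e, h using Nat.le_induction with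
  | base => norm_num
  | succ n hn ih =>
    rw [pow_succ]
    nlinarith

theorem Y1 {p e : ℕ} (hp : p.Prime) (h3 : 2 < p) (he : p + 6 ≤ e) (h11 : 11 ≤ e) {y2 : ℝ}
    (z0 : 0 < y2) (z1 : y2 < 1) (z2 : y2 ^ p ≤ 1 / 4) : ∃ y : ℝ,
    y2 < y ∧ y < 1 ∧ GE (fun x => gg p (-x)) e y < 0 := by
  have p0 : p ≠ 0 := by omega
  have e0 : e ≠ 0 := by omega
  have hp3 : (3 : ℝ) ≤ p := by exact_mod_cast h3
  have pp : (0 : ℝ) < p := by linarith
  have he6 : (p : ℝ) + 6 ≤ e := by exact_mod_cast he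
  have he11 : (11 : ℝ) ≤ e := by exact_mod_cast h11
  have ep : (0 : ℝ) < e := by linarith
  have q0 : (0 : ℝ) < 1 / 4 := by norm_num
  have q1 : (1 / 4 : ℝ) < 1 := by norm_num
  have r0 : (0 : ℝ) < 1 / 2 := by norm_num
  have r1 : (1 / 2 : ℝ) < 1 := by norm_num
  rcases le_or_gt e (3 * p) with hep | hep
  · -- `y ^ p = 1 / 2`
    obtain ⟨a1, a2, a3⟩ := root_facts r0 r1 p0
    set y : ℝ := (1 / 2 : ℝ) ^ ((p : ℝ)⁻¹) with hy
    refine ⟨y, ?_, a3, ?_⟩
    · apply lt_of_pow_lt_pow_left₀ p a2.le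
      rw [a1]; linarith
    · show gg p (-y) + e * gg p (-(y ^ e)) < 0
      rw [hneg hp h3 a2.le, hneg hp h3 (pow_nonneg a2.le e)]
      have hep' : (e : ℝ) ≤ 3 * p := by exact_mod_cast hep
      have u1 : 1 / 3 ≤ y / (1 + y) := by
        have : y ^ p ≤ y := pow_le_of_le_one a2.le a3.le p0
        rw [a1] at this
        rw [div_le_div_iff₀ (by norm_num) (by positivity)]
        linarith
      have hup : (y ^ e) ^ p = (1 / 2) ^ e := by
        rw [← pow_mul, mul_comm, pow_mul, a1]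
      have u2 : (p : ℝ) ≤ y ^ e * (3 * e - p) := by
        set ρ : ℝ := (e : ℝ) / p with hρ
        have r1 : 1 ≤ ρ := by rw [hρ, le_div_iff₀ pp]; linarith
        have r3 : ρ ≤ 3 := by rw [hρ, div_le_iff₀ pp]; linarith
        have h1 := two_rpow r1 r3
        have h2 : ((2 : ℝ) ^ ρ) ^ p = 2 ^ e := by
          rw [← Real.rpow_natCast, ← Real.rpow_mul (by norm_num), hρ, div_mul_cancel₀ _ pp.ne',
            Real.rpow_natCast]
        have h4 : (2 : ℝ) ^ e ≤ (3 * ρ - 1) ^ p := by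
          rw [← h2]; exact pow_le_pow_left₀ (by positivity) h1 p
        have h5 : 1 ≤ y ^ e * (3 * ρ - 1) := by
          apply le_of_pow_le_pow_left₀ p0 (mul_nonneg (by positivity) (by linarith))
          rw [one_pow, mul_pow, hup]
          have h6 := mul_le_mul_of_nonneg_left h4 (show (0 : ℝ) ≤ (1 / 2) ^ e by positivity)
          have h7 : ((1 : ℝ) / 2) ^ e * 2 ^ e = 1 := by rw [← mul_pow]; norm_num
          linarith
        have h6 := mul_le_mul_of_nonneg_left h5 pp.le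
        have h7 : (p : ℝ) * (y ^ e * (3 * ρ - 1)) = y ^ e * (3 * e - p) := by
          rw [hρ]; field_simp
        linarith
      have u3 : (p : ℝ) / 3 ≤ e * (y ^ e / (1 + y ^ e)) := by
        rw [mul_div_assoc', div_le_div_iff₀ (by norm_num) (by positivity)]
        nlinarith
      have u4 : e * (p * (y ^ e) ^ p / (1 + (y ^ e) ^ p)) < 1 / 3 := by
        have h1 : p * (y ^ e) ^ p / (1 + (y ^ e) ^ p) ≤ p * (1 / 2) ^ e := by
          rw [hup]
          apply div_le_self (by positivity)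
          have : (0 : ℝ) < (1 / 2) ^ e := by positivity
          linarith
        have h2 : (p : ℝ) * (1 / 2) ^ e ≤ e * (1 / 2) ^ e :=
          mul_le_mul_of_nonneg_right (by linarith) (by positivity)
        have h4 : 3 * ((e : ℝ) * e) < 2 ^ e := by exact_mod_cast sq_lt h11
        have h5 : (e : ℝ) * (e * (1 / 2) ^ e) < 1 / 3 := by
          have h6 : (e : ℝ) * (e * (1 / 2) ^ e) = e * e / 2 ^ e := by
            rw [one_div, inv_pow]; ring
          rw [h6, div_lt_div_iff₀ (by positivity) (by norm_num)]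
          linarith
        have h6 := mul_le_mul_of_nonneg_left (h1.trans h2) ep.le
        linarith
      have u5 : (p : ℝ) * y ^ p / (1 + y ^ p) = p / 3 := by
        rw [a1]; ring
      rw [u5, mul_sub]
      linarith
  · -- `y ^ e = 1 / 4`
    obtain ⟨a1, a2, a3⟩ := root_facts q0 q1 e0
    set y : ℝ := (1 / 4 : ℝ) ^ ((e : ℝ)⁻¹) with hy
    refine ⟨y, ?_, a3, ?_⟩
    · apply lt_of_pow_lt_pow_left₀ e a2.le
      rw [a1]
      refine lt_of_lt_of_le (pow_lt_pow_right_of_lt_one₀ z0 z1 (show p < e by omega)) z2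
    · show gg p (-y) + e * gg p (-(y ^ e)) < 0
      rw [a1, hneg hp h3 a2.le, hneg hp h3 q0.le]
      have hep' : 3 * (p : ℝ) < e := by exact_mod_cast hep
      have w1 : y ^ p ≤ 1 := pow_le_one₀ a2.le a3.le
      have w0 : 0 < y ^ p := pow_pos a2 p
      have u1 : p * y ^ p / (1 + y ^ p) ≤ p / 2 := by
        rw [div_le_iff₀ (by positivity)]
        nlinarith
      have u2 : 0 < y / (1 + y) := by positivity
      have u4 : (p : ℝ) * (1 / 4) ^ p / (1 + (1 / 4) ^ p) ≤ p * (1 / 4) ^ p := by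
        apply div_le_self (by positivity)
        have : (0 : ℝ) < (1 / 4) ^ p := by positivity
        linarith
      rcases Nat.lt_or_ge 3 p with h4 | h4
      · have h5 : 5 ≤ p := by
          rcases Nat.lt_or_ge p 5 with h | h
          · obtain rfl : p = 4 := by omega
            exact absurd hp (by norm_num)
          · exact h
        have u3 : (p : ℝ) * (1 / 4) ^ p ≤ 5 / 1024 := by
          have := decr (y := 1 / 4) (by norm_num) (by norm_num) (k := 5) (by norm_num) p h5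
          norm_num at this ⊢
          linarith
        have u5 : (p : ℝ) * (1 / 4) ^ p / (1 + (1 / 4) ^ p) - 1 / 4 / (1 + 1 / 4) ≤
            -(999 / 5120) := by
          norm_num at u3 u4 ⊢
          linarith
        have u6 := mul_le_mul_of_nonneg_left u5 ep.le
        linarith
      · obtain rfl : p = 3 := by omega
        have u5 : ((3 : ℕ) : ℝ) * (1 / 4) ^ 3 / (1 + (1 / 4) ^ 3) - 1 / 4 / (1 + 1 / 4) ≤
            -(49 / 320) := by
          norm_num
        have u6 := mul_le_mul_of_nonneg_left u5 ep.le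
        push_cast at u1 u6 ⊢
        linarith

theorem samp2 {p e : ℕ} (hp : p.Prime) (h3 : 2 < p) (he : p + 6 ≤ e) (h11 : 11 ≤ e) :
    ∃ y1 y2 y3 : ℝ, 0 < y3 ∧ y3 < y2 ∧ y2 < y1 ∧ y1 < 1 ∧ GE (fun x => gg p (-x)) e y1 < 0 ∧
    0 < GE (fun x => gg p (-x)) e y2 ∧ GE (fun x => gg p (-x)) e y3 < 0 := by
  have hp3 : (3 : ℝ) ≤ p := by exact_mod_cast h3
  have pp : (0 : ℝ) < p := by linarith
  have p0 : p ≠ 0 := by omega
  have e0 : e ≠ 0 := by omega
  have ep : (0 : ℝ) < e := by exact_mod_cast (by omega : 0 < e)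
  obtain ⟨y2, b2, b3, b4, b5, b6⟩ := Y2 hp h3 he h11
  obtain ⟨y1, a1, a2, a3⟩ := Y1 hp h3 he h11 b2 b3 b5
  set y3 : ℝ := 1 / (2 * p) with hy3
  have c1 : 0 < y3 := by positivity
  have c2 : y3 * p = 1 / 2 := by rw [hy3]; field_simp
  have c3 : y3 ≤ 1 / 6 := by
    rw [hy3]; exact one_div_le_one_div_of_le (by norm_num) (by linarith)
  refine ⟨y1, y2, y3, c1, ?_, a1, a2, a3, b6, ?_⟩
  · apply lt_of_pow_lt_pow_left₀ p b2.le
    have : y3 ^ p ≤ y3 := pow_le_of_le_one c1.le (by linarith) p0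
    linarith
  · show gg p (-y3) + e * gg p (-(y3 ^ e)) < 0
    have d1 : 0 < y3 ^ e := by positivity
    have d2 : y3 ^ e ≤ y3 := pow_le_of_le_one c1.le (by linarith) e0
    have d3 := hneg_lt hp h3 c1 c3 c2.le
    have d4 := hneg_lt hp h3 d1 (d2.trans c3) ((mul_le_mul_of_nonneg_right d2 pp.le).trans c2.le)
    have := mul_neg_of_pos_of_neg ep d4
    linarith

end Pool.Agent.KS6_64.DB
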