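import Pool.Agent.KS6_64.DA.TwoE
import Pool.Agent.KS6_64.DB.Samp2

/-!
# Two large primes of ratio near `p'`, where `p' ≥ p + 6`
-/

set_option autoImplicit false

namespace Pool.Agent.KS6_64.DB

open Filter Topology Pool.Agent.KS6_64.CY Pool.Agent.KS6_64.CZ Pool.Agent.KS6_64.DA

theorem negL2 {p e : ℕ} (hp : p.Prime) (h3 : 2 < p) (oe : Odd e) (he : p + 6 ≤ e) (h11 : 11 ≤ e) :
    ∃ t : ℝ, 0 < t ∧ t ≤ 1 ∧
    ∀ t' ≤ t, ∀ᶠ q : ℕ in atTop, ∀ r : ℕ, e * q ≤ r → (r : ℝ) ≤ (1 + t') * (e * q) →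
      Odd q → Odd r → POS (HH (fun x => gg p (-x)) q r) 5 := by
  obtain ⟨A, -, hA⟩ := bound_of h3
  have hA' := bound_one hA
  have hc : Continuous (fun x => gg p (-x)) := (gg_cont h3).comp continuous_neg
  obtain ⟨x, hx, hxd⟩ := neg_prime hp h3
  obtain ⟨z00, z01, z02⟩ := hx 0 (by omega)
  obtain ⟨z10, z11, z12⟩ := hx 1 le_rfl
  have z3 := hxd 0 (by omega)
  rw [pow_zero, one_mul] at z02
  rw [pow_one, neg_one_mul] at z12
  rw [zero_add] at z3
  obtain ⟨y1, y2, y3, c0, c1, c2, c3, g1, g2, g3⟩ := samp2 hp h3 he h11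
  have y10 : 0 < y1 := by linarith
  have y20 : 0 < y2 := by linarith
  have y21 : y2 < 1 := by linarith
  have y31 : y3 < 1 := by linarith
  obtain ⟨t1, t10, t11, ht1⟩ := L1 hc hA oe y10 c3 g1.ne
  obtain ⟨t2, t20, t21, ht2⟩ := L1 hc hA oe y20 y21 g2.ne'
  obtain ⟨t3, t30, t31, ht3⟩ := L1 hc hA oe c0 y31 g3.ne
  refine ⟨min t1 (min t2 t3), by positivity, (min_le_left _ _).trans t11, fun t' ht' => ?_⟩
  have b1 := ht'.trans (min_le_left _ _)
  have b2 := (ht'.trans (min_le_right _ _)).trans (min_le_left _ _)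
  have b3 := (ht'.trans (min_le_right _ _)).trans (min_le_right _ _)
  have hz1 : (fun x => gg p (-x)) (x 1) ≠ 0 := by
    intro h; rw [h] at z12; linarith
  filter_upwards [ht1 t' b1, ht2 t' b2, ht3 t' b3, L2 hA' z00 z01 z02.ne',
    L2 hA' z10 z11 hz1, L0 hA e oe.pos z10 z11 hz1,
    ord2 y10 c3 z10 z11, ord1 c0 y31 z10 z11, eventually_gt_atTop 0]
    with q e1 e2 e3 f0 f1 f2 o2 o1 hq0 r her hr oq or
  have hqr : q ≤ r := (Nat.le_mul_of_pos_left q oe.pos).trans her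
  have hr2 : (r : ℝ) ≤ 2 * e * q := by
    have h2 : (0 : ℝ) ≤ e * q := by positivity
    nlinarith
  have a1 := e1 r her hr oq or
  have a2 := e2 r her hr oq or
  have a3 := e3 r her hr oq or
  have a4 := f0 r hqr
  have a5 := f1 r hqr
  have a6 := f2 r hqr hr2
  have hqr0 : q * r ≠ 0 := Nat.mul_ne_zero (by omega) (by omega)
  have hq0' : q ≠ 0 := by omega
  refine POS6 (root_facts z00 z01 hqr0).2.2 (mono_root z10 z3 hqr0) (o2 r hqr)
    (mono_root y20 c2 hq0') (mono_root c0 c1 hq0') o1 z10 ?_ ?_ ?_ ?_ ?_ ?_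
  · exact (pos_iff_pos_of_mul_pos a4).1 z02
  · exact (neg_iff_neg_of_mul_pos a5).1 (by linarith)
  · exact (pos_iff_pos_of_mul_pos a1).1 (by linarith)
  · exact (neg_iff_neg_of_mul_pos a2).1 (by linarith)
  · exact (pos_iff_pos_of_mul_pos a3).1 (by linarith)
  · exact (neg_iff_neg_of_mul_pos a6).1 (by linarith)

/-- two large primes `q`, `r` with `r / q` slightly larger than `p'` -/
theorem exists_qr2 {p p' : ℕ} (hp : p.Prime) (hp' : p'.Prime) (h3 : 2 < p) (he : p + 6 ≤ p') (R : ℕ) :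
    ∃ q r : ℕ, q.Prime ∧ r.Prime ∧ R < q ∧ p' < q ∧ q < r ∧
      UP (gg (p' * q * r)) (gg' (p' * q * r)) 5 ∧ POS (gg (p * q * r)) 2 ∧
      POS (fun x => gg (p * q * r) (-x)) 5 := by
  have h3' : 2 < p' := by omega
  have h11 : 11 ≤ p' := by
    rcases Nat.lt_or_ge p' 11 with h | h
    · have h9 : 9 ≤ p' := by omega
      exfalso
      interval_cases p'
      · exact absurd hp' (by norm_num)
      · exact absurd hp' (by norm_num)
    · exact h
  have oe : Odd p' := hp'.odd_of_ne_two (by omega)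
  obtain ⟨t1, t10, t11, ht1⟩ := upE hp' h3'
  obtain ⟨t2, t20, t21, ht2⟩ := posL hp h3 oe
  obtain ⟨t3, t30, t31, ht3⟩ := negL2 hp h3 oe he h11
  set t : ℝ := min t1 (min t2 t3) with ht
  have t0 : 0 < t := by positivity
  have tt : t ≤ 1 := (min_le_left _ _).trans t11
  have hall := ht1.and ((ht2 t ((min_le_right _ _).trans (min_le_left _ _))).and
    ((ht3 t ((min_le_right _ _).trans (min_le_right _ _))).and
      ((exists_prime_E t0 tt hp'.pos).and (eventually_gt_atTop (max R p')))))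
  obtain ⟨Q, hQ⟩ := eventually_atTop.1 hall
  obtain ⟨q, hqQ, pq⟩ := Nat.exists_infinite_primes Q
  obtain ⟨e1, e2, e3, ⟨r, pr, hr1, hr2⟩, hqR⟩ := hQ q hqQ
  have hq1 : R < q := lt_of_le_of_lt (le_max_left _ _) hqR
  have hq2 : p' < q := lt_of_le_of_lt (le_max_right _ _) hqR
  have hqr : q < r := by
    have : 2 * q ≤ p' * q := Nat.mul_le_mul_right q (by omega)
    have := pq.pos
    omega
  have oq : Odd q := pq.odd_of_ne_two (by omega)
  have or : Odd r := pr.odd_of_ne_two (by omega)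
  have hpq : p < q := by omega
  have f2 := e2 r hr1.le hr2 oq or
  have f3 := e3 r hr1.le hr2 oq or
  rw [HH_gg h3 pq pr hpq hqr] at f2
  rw [HH_neg oq or, HH_gg h3 pq pr hpq hqr] at f3
  refine ⟨q, r, pq, pr, hq1, hq2, hqr, e1 r pq pr hr1.le (hr2.trans ?_), f2, f3⟩
  have : t ≤ t1 := min_le_left _ _
  have h5 : (0 : ℝ) ≤ p' * q := by positivity
  exact mul_le_mul_of_nonneg_right (by linarith) h5

end Pool.Agent.KS6_64.DB
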